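import Pool.Agent.Y80.KI.Defs
import Pool.Agent.Y960.KM.AltDimJob

/-!
Artin's theorem: in an alternative ring the value of a word in two letters does not depend on the
bracketing.
-/

set_option autoImplicit false

namespace Pool.Agent.Y547.KI

open Pool.Agent.Y80.KM

section assoc

variable {A : Type*} [NonUnitalNonAssocRing A]

/-- the associator -/
def as (a b c : A) : A := (a * b) * c - a * (b * c)

lemma as_add1 (a a' b c : A) : as (a + a') b c = as a b c + as a' b c := by
  unfold as; simp only [add_mul]; abel

lemma as_add2 (a b b' c : A) : as a (b + b') c = as a b c + as a b' c := by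
  unfold as; simp only [add_mul, mul_add]; abel

lemma as_add3 (a b c c' : A) : as a b (c + c') = as a b c + as a b c' := by
  unfold as; simp only [mul_add]; abel

lemma as_zero1 (b c : A) : as 0 b c = 0 := by
  unfold as; simp only [zero_mul, sub_zero]

lemma as_zero2 (a c : A) : as a 0 c = 0 := by
  unfold as; simp only [zero_mul, mul_zero, sub_zero]

lemma as_zero3 (a b : A) : as a b 0 = 0 := by
  unfold as; simp only [mul_zero, sub_zero]

variable (hA : IsAlt A)

include hA

lemma as_l (a b : A) : as a a b = 0 := sub_eq_zero.mpr (hA a b).1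

lemma as_r (a b : A) : as b a a = 0 := sub_eq_zero.mpr (hA a b).2

lemma swap12 (a b c : A) : as a b c = -as b a c := by
  have h := as_l hA (a + b) c
  rw [as_add1, as_add2, as_add2, as_l hA, as_l hA, zero_add, add_zero] at h
  exact eq_neg_of_add_eq_zero_left h

lemma swap23 (a b c : A) : as a b c = -as a c b := by
  have h := as_r hA (b + c) a
  rw [as_add2, as_add3, as_add3, as_r hA, as_r hA, zero_add, add_zero] at h
  exact eq_neg_of_add_eq_zero_left h

lemma swap13 (a b c : A) : as a b c = -as c b a := by
  rw [swap12 hA a b c, swap23 hA b a c, swap12 hA b c a, neg_neg]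

lemma cyc (a b c : A) : as a b c = as b c a := by
  rw [swap12 hA a b c, swap23 hA b a c, neg_neg]

lemma flexible (a b : A) : as a b a = 0 := by
  rw [swap23 hA, as_l hA, neg_zero]

/-- the left Moufang identity -/
lemma lm (x a y : A) : as (x * a) x y + as x a (x * y) = 0 := by
  rw [swap12 hA (x * a) x y, swap23 hA x a (x * y), ← neg_add, neg_eq_zero]
  have h1 : ∀ c : A, x * (x * c) = (x * x) * c := fun c => (hA x c).1.symm
  have hAA : as (x * x) a y + as (x * x) y a = 0 := by
    rw [swap23 hA (x * x) a y, neg_add_cancel]
  have hBB : x * (as x a y + as x y a) = 0 := by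
    rw [swap23 hA x a y, neg_add_cancel, mul_zero]
  have hCC := h1 (a * y)
  have hDD := h1 (y * a)
  unfold as at *
  rw [h1 a, h1 y]
  simp only [mul_add, mul_sub] at hBB
  calc _ = (x * x * a * y - x * x * (a * y) + (x * x * y * a - x * x * (y * a))) -
        (x * (x * a * y) - x * (x * (a * y)) + (x * (x * y * a) - x * (x * (y * a)))) +
        ((x * x) * (a * y) - x * (x * (a * y))) + ((x * x) * (y * a) - x * (x * (y * a))) := by
        abel
    _ = 0 := by rw [hAA, hBB, hCC, hDD]; abel

/-- the right Moufang identity -/
lemma rm (x y z : A) : as (z * x) y x + as z x (y * x) = 0 := by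
  rw [swap12 hA (z * x) y x, swap23 hA z x (y * x), ← neg_add, neg_eq_zero]
  have h1 : ∀ c : A, (c * x) * x = c * (x * x) := fun c => (hA x c).2
  have hAA : as y z (x * x) + as z y (x * x) = 0 := by
    rw [swap12 hA y z (x * x), neg_add_cancel]
  have hBB : (as y z x + as z y x) * x = 0 := by
    rw [swap12 hA y z x, neg_add_cancel, zero_mul]
  have hCC := h1 (y * z)
  have hDD := h1 (z * y)
  unfold as at *
  rw [h1 z, h1 y]
  simp only [add_mul, sub_mul] at hBB
  calc _ = (y * z * (x * x) - y * (z * (x * x)) + (z * y * (x * x) - z * (y * (x * x)))) -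
        (y * z * x * x - y * (z * x) * x + (z * y * x * x - z * (y * x) * x)) +
        ((y * z * x) * x - (y * z) * (x * x)) + ((z * y * x) * x - (z * y) * (x * x)) := by
        abel
    _ = 0 := by rw [hAA, hBB, hCC, hDD]; abel

omit hA in
/-- the Teichmueller identity -/
lemma teich (w x y z : A) :
    as (w * x) y z - as w (x * y) z + as w x (y * z) = w * as x y z + as w x y * z := by
  unfold as
  simp only [mul_sub, sub_mul]
  abel

lemma i2 (x y z : A) : as x (x * y) z = as x y z * x := by
  have h := teich z x y x
  rw [flexible hA x y, mul_zero, zero_add] at h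
  have h2 := rm hA x y z
  have h3 : as z (x * y) x = -(as z x y * x) := by
    rw [← h]
    have : as (z * x) y x - as z (x * y) x + as z x (y * x) =
        (as (z * x) y x + as z x (y * x)) - as z (x * y) x := by abel
    rw [this, h2, zero_sub, neg_neg]
  rw [swap13 hA x (x * y) z, h3, neg_neg, cyc hA z x y]

lemma i3 (x u y z : A) :
    as x (u * y) z + as u (x * y) z = as x y z * u + as u y z * x := by
  have h := i2 hA (x + u) y z
  simp only [add_mul, mul_add, as_add1, as_add2] at h
  rw [i2 hA x y z, i2 hA u y z] at h
  have h2 : as x y z * x + as x (u * y) z + (as u (x * y) z + as u y z * u) =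
      (as x (u * y) z + as u (x * y) z) + (as x y z * x + as u y z * u) := by abel
  have h3 : as x y z * x + as x y z * u + (as u y z * x + as u y z * u) =
      (as x y z * u + as u y z * x) + (as x y z * x + as u y z * u) := by abel
  refine add_right_cancel (b := as x y z * x + as u y z * u) ?_
  rw [← h2, ← h3]
  rw [← sub_eq_zero] at h ⊢
  rw [← h]
  abel

end assoc

section words

variable {A : Type*} [NonUnitalNonAssocRing A]

/-- right normed products -/
def rn (f : Fin 2 → A) : List (Fin 2) → A
  | [] => 0
  | [x] => f x
  | x :: y :: l => f x * rn f (y :: l)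

lemma rn_cons (f : Fin 2 → A) (x : Fin 2) (l : List (Fin 2)) (hl : l ≠ []) :
    rn f (x :: l) = f x * rn f l := by
  cases l with
  | nil => exact absurd rfl hl
  | cons y l => rfl

/-- products of total length at most `n` are associative -/
def Cl (f : Fin 2 → A) (n : ℕ) : Prop := ∀ a b c : List (Fin 2),
  a.length + b.length + c.length ≤ n → as (rn f a) (rn f b) (rn f c) = 0

lemma mul_rn (f : Fin 2 → A) (n : ℕ) (hC : Cl f n) (a b : List (Fin 2)) (ha : a ≠ [])
    (hb : b ≠ []) (hn : a.length + b.length ≤ n) : rn f a * rn f b = rn f (a ++ b) := by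
  induction a with
  | nil => exact absurd rfl ha
  | cons x l ih =>
    by_cases hl : l = []
    · subst hl
      rw [List.singleton_append, rn_cons f x b hb]; rfl
    · have h1 := hC [x] l b (by simp only [List.length_cons, List.length_nil] at hn ⊢; omega)
      have h2 := ih hl (by simp only [List.length_cons] at hn; omega)
      have h3 : f x * rn f l * rn f b = f x * (rn f l * rn f b) := sub_eq_zero.mp h1
      rw [rn_cons f x l hl, h3, h2, List.cons_append, rn_cons f x (l ++ b) (by simp [hl])]

lemma core (hA : IsAlt A) (f : Fin 2 → A) (n : ℕ) (hC : Cl f n) (x : Fin 2)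
    (q r p : List (Fin 2)) (hn : (x :: r).length + (x :: q).length + p.length ≤ n + 1) :
    as (rn f (x :: r)) (rn f (x :: q)) (rn f p) = 0 := by
  simp only [List.length_cons] at hn
  by_cases hr : r = []
  · subst hr
    by_cases hq : q = []
    · subst hq
      exact as_l hA _ _
    · have h1 : as (f x) (rn f q) (rn f p) = 0 :=
        hC [x] q p (by simp only [List.length_cons, List.length_nil] at hn ⊢; omega)
      rw [rn_cons f x q hq]
      show as (f x) (f x * rn f q) (rn f p) = 0
      rw [i2 hA, h1, zero_mul]
  · by_cases hq : q = []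
    · subst hq
      have h1 : as (f x) (rn f r) (rn f p) = 0 :=
        hC [x] r p (by simp only [List.length_cons, List.length_nil] at hn ⊢; omega)
      rw [rn_cons f x r hr, swap12 hA]
      show -as (f x) (f x * rn f r) (rn f p) = 0
      rw [i2 hA, h1, zero_mul, neg_zero]
    · have h1 : as (f x) (rn f q) (rn f p) = 0 :=
        hC [x] q p (by simp only [List.length_cons, List.length_nil]; omega)
      have h2 : as (rn f (x :: r)) (rn f q) (rn f p) = 0 :=
        hC (x :: r) q p (by simp only [List.length_cons]; omega)
      have h3 : as (f x) (rn f r) (rn f q) = 0 :=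
        hC [x] r q (by simp only [List.length_cons, List.length_nil]; omega)
      have h4 : as (f x) (rn f (r ++ q)) (rn f p) = 0 :=
        hC [x] (r ++ q) p (by
          simp only [List.length_cons, List.length_nil, List.length_append]; omega)
      have h5 := mul_rn f n hC r q hr hq (by omega)
      have h6 := i3 hA (f x) (rn f (x :: r)) (rn f q) (rn f p)
      rw [h1, h2, zero_mul, zero_mul, add_zero] at h6
      have h7 : rn f (x :: r) * rn f q = f x * rn f (r ++ q) := by
        rw [rn_cons f x r hr, ← h5]
        exact sub_eq_zero.mp h3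
      rw [h7, i2 hA, h4, zero_mul, zero_add] at h6
      rw [rn_cons f x q hq]
      exact h6

lemma cl_all (hA : IsAlt A) (f : Fin 2 → A) (n : ℕ) : Cl f n := by
  induction n with
  | zero =>
    intro a b c h
    have ha : a = [] := List.length_eq_zero_iff.mp (by omega)
    rw [ha]
    exact as_zero1 _ _
  | succ n ih =>
    intro a b c h
    cases a with
    | nil => exact as_zero1 _ _
    | cons x a =>
    cases b with
    | nil => exact as_zero2 _ _
    | cons y b =>
    cases c with
    | nil => exact as_zero3 _ _
    | cons z c =>
      have hcases : x = y ∨ y = z ∨ x = z := by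
        fin_cases x <;> fin_cases y <;> fin_cases z <;> simp
      rcases hcases with rfl | rfl | rfl
      · exact core hA f n ih x b a (z :: c) h
      · rw [cyc hA]
        exact core hA f n ih y c b (x :: a) (by omega)
      · rw [swap23 hA, neg_eq_zero]
        exact core hA f n ih x c a (y :: b) (by omega)

end words

/-- Artin's theorem -/
theorem artin {A : Type*} [NonUnitalNonAssocRing A] (hA : IsAlt A) (f : Fin 2 → A)
    (w w' : FreeMagma (Fin 2)) (h : Pool.Agent.Y960.KM.toWord w = Pool.Agent.Y960.KM.toWord w') :
    FreeMagma.lift f w = FreeMagma.lift f w' := by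
  have hne : ∀ w : FreeMagma (Fin 2), (Pool.Agent.Y960.KM.toWord w).toList ≠ [] := by
    intro w
    induction w with
    | ih1 i =>
      change (FreeMonoid.of i).toList ≠ []
      simp
    | ih2 x y hx hy =>
      change (Pool.Agent.Y960.KM.toWord x * Pool.Agent.Y960.KM.toWord y).toList ≠ []
      rw [FreeMonoid.toList_mul]
      simp [hx]
  have key : ∀ w : FreeMagma (Fin 2),
      FreeMagma.lift f w = rn f (Pool.Agent.Y960.KM.toWord w).toList := by
    intro w
    induction w with
    | ih1 i => rfl
    | ih2 x y hx hy =>
      rw [map_mul, hx, hy, mul_rn f _ (cl_all hA f _) _ _ (hne x) (hne y) le_rfl,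
        ← FreeMonoid.toList_mul]
      rfl
  rw [key w, key w', h]

end Pool.Agent.Y547.KI
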