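import Pool.Agent.Y80.KI.Defs

/-!
Holomorphic extension of a sum with a simple pole at one half.
-/

set_option autoImplicit false

open scoped BigOperators DirectSum Topology

namespace Pool.Agent.Y547.KI

open Pool.Agent.Y80.KI

lemma norm_toC {K : Type*} [TopologicalSpace K] [CompactSpace K] (f : C(K, ℝ)) (M : ℝ)
    (hM0 : 0 ≤ M) (hM : ∀ θ, |f θ| ≤ M) : ‖toC f‖ ≤ M := by
  rw [ContinuousMap.norm_le _ hM0]
  intro θ
  show ‖((f θ : ℝ) : ℂ)‖ ≤ M
  rw [Complex.norm_real, Real.norm_eq_abs]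
  exact hM θ

theorem hol {K : Type*} [TopologicalSpace K] [CompactSpace K] (S : ℕ → C(K, ℝ)) (M : ℝ)
    (hM : ∀ k θ, |S k θ| ≤ M) (r ρ : ℝ) (hρ : 1 / 2 < ρ) (h : ℂ → ℂ)
    (hh : DifferentiableOn ℂ h (Metric.ball 0 ρ)) (h0 : h 0 = -r) :
    ∃ ρ' : ℝ, 1 / 2 < ρ' ∧ ρ' ≤ ρ ∧ ρ' ≤ 1 ∧ ∃ G : ℂ → C(K, ℂ),
      DifferentiableOn ℂ G (Metric.ball 0 ρ') ∧ ∀ t ∈ Metric.ball (0 : ℂ) ρ',
        HasSum (fun k : ℕ => ((r / (1 - 2 * t ^ (k + 2)) + h (t ^ (k + 2))) / ((k : ℂ) + 2)) •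
          toC (S (k + 2))) (G t) := by
  set c : ℂ → ℂ := fun u => r / (1 - 2 * u) + h u with hc
  have hnz : ∀ u ∈ Metric.ball (0 : ℂ) (1 / 2), (1 : ℂ) - 2 * u ≠ 0 := by
    intro u hu h1
    rw [mem_ball_zero_iff] at hu
    have h2 : (2 : ℂ) * u = 1 := by linear_combination -h1
    have h3 := congrArg norm h2
    rw [norm_mul, norm_one, Complex.norm_ofNat] at h3
    linarith
  have hcd : DifferentiableOn ℂ c (Metric.ball 0 (1 / 2)) := by
    refine DifferentiableOn.add ?_ (hh.mono (Metric.ball_subset_ball hρ.le))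
    refine DifferentiableOn.div (differentiableOn_const _) ?_ hnz
    fun_prop
  have hc0 : c 0 = 0 := by simp [hc, h0]
  -- the bound
  have hg : ContinuousOn (dslope c 0) (Metric.closedBall 0 (49 / 100)) := by
    have h1 : DifferentiableOn ℂ (dslope c 0) (Metric.ball 0 (1 / 2)) :=
      (Complex.differentiableOn_dslope (Metric.ball_mem_nhds 0 (by norm_num))).mpr hcd
    exact h1.continuousOn.mono (Metric.closedBall_subset_ball (by norm_num))
  obtain ⟨C, hC⟩ := (isCompact_closedBall (0 : ℂ) (49 / 100)).exists_bound_of_continuousOn hg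
  have hC0 : 0 ≤ C := (norm_nonneg _).trans (hC 0 (by simp; norm_num))
  have hbd : ∀ u ∈ Metric.closedBall (0 : ℂ) (49 / 100), ‖c u‖ ≤ C * ‖u‖ := by
    intro u hu
    have h1 := sub_smul_dslope c 0 u
    rw [hc0, sub_zero, sub_zero, smul_eq_mul] at h1
    rw [← h1, norm_mul, mul_comm]
    exact mul_le_mul_of_nonneg_right (hC u hu) (norm_nonneg _)
  have hρ' : min ρ (7 / 10) ≤ 7 / 10 := min_le_right _ _
  have hpow : ∀ t ∈ Metric.ball (0 : ℂ) (min ρ (7 / 10)), ∀ k : ℕ,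
      ‖t ^ (k + 2)‖ ≤ (7 / 10) ^ (k + 2) ∧ t ^ (k + 2) ∈ Metric.closedBall (0 : ℂ) (49 / 100) := by
    intro t ht k
    rw [mem_ball_zero_iff] at ht
    have h1 : ‖t‖ ≤ 7 / 10 := by linarith
    have h2 : ‖t ^ (k + 2)‖ ≤ (7 / 10) ^ (k + 2) := by
      rw [norm_pow]
      exact pow_le_pow_left₀ (norm_nonneg _) h1 _
    refine ⟨h2, ?_⟩
    rw [mem_closedBall_zero_iff]
    refine h2.trans ?_
    have h3 : ((7 : ℝ) / 10) ^ (k + 2) ≤ (7 / 10) ^ 2 :=
      pow_le_pow_of_le_one (by norm_num) (by norm_num) (by omega)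
    norm_num at h3 ⊢
    linarith
  set F : ℕ → ℂ → C(K, ℂ) := fun k t => (c (t ^ (k + 2)) / ((k : ℂ) + 2)) • toC (S (k + 2))
    with hF
  have hk2 : ∀ k : ℕ, (1 : ℝ) ≤ ‖(k : ℂ) + 2‖ := by
    intro k
    have : (k : ℂ) + 2 = ((k + 2 : ℝ) : ℂ) := by push_cast; ring
    rw [this, Complex.norm_real, Real.norm_eq_abs, abs_of_nonneg (by positivity)]
    have : (0 : ℝ) ≤ k := Nat.cast_nonneg k
    linarith
  have hFle : ∀ (k : ℕ) (t : ℂ), t ∈ Metric.ball (0 : ℂ) (min ρ (7 / 10)) →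
      ‖F k t‖ ≤ C * (7 / 10) ^ (k + 2) * |M| := by
    intro k t ht
    obtain ⟨h1, h2⟩ := hpow t ht k
    have h3 := hbd _ h2
    have h4 : ‖c (t ^ (k + 2)) / ((k : ℂ) + 2)‖ ≤ C * (7 / 10) ^ (k + 2) := by
      rw [norm_div]
      refine (div_le_self (norm_nonneg _) (hk2 k)).trans ?_
      exact h3.trans (mul_le_mul_of_nonneg_left h1 hC0)
    have h5 : ‖toC (S (k + 2))‖ ≤ |M| :=
      norm_toC _ _ (abs_nonneg _) fun θ => (hM _ θ).trans (le_abs_self _)
    rw [hF]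
    simp only
    rw [norm_smul]
    exact mul_le_mul h4 h5 (norm_nonneg _) (by positivity)
  have hsum : Summable fun k : ℕ => C * (7 / 10 : ℝ) ^ (k + 2) * |M| := by
    have h1 : Summable fun k : ℕ => (7 / 10 : ℝ) ^ k :=
      summable_geometric_of_lt_one (by norm_num) (by norm_num)
    have h2 := ((summable_nat_add_iff 2).mpr h1).mul_left C
    exact h2.mul_right |M|
  refine ⟨min ρ (7 / 10), lt_min hρ (by norm_num), min_le_left _ _, by linarith,
    fun t => ∑' k, F k t, ?_, ?_⟩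
  · refine Complex.differentiableOn_tsum_of_summable_norm hsum ?_ Metric.isOpen_ball hFle
    intro k
    have h1 : DifferentiableOn ℂ (fun t : ℂ => c (t ^ (k + 2)))
        (Metric.ball 0 (min ρ (7 / 10))) := by
      refine hcd.comp (by fun_prop) ?_
      intro t ht
      have h2 := (hpow t ht k).2
      exact Metric.closedBall_subset_ball (by norm_num) h2
    exact (h1.div_const _).smul_const _
  · intro t ht
    have h1 : Summable fun k => F k t := Summable.of_norm_bounded hsum fun k => hFle k t ht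
    exact h1.hasSum

end Pool.Agent.Y547.KI
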